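import Mathlib

/-!
# Real-rootedness of Veronese-type numerators and of even parts
-/

set_option autoImplicit false

namespace Pool.Agent.T2H51.LAP

open Polynomial

/-- all complex roots of the real polynomial `p` are negative reals -/
def NegRooted (p : ℝ[X]) : Prop := ∀ z : ℂ, aeval z p = 0 → z.im = 0 ∧ z.re < 0

/-- the next numerator -/
noncomputable def nxt (d : ℕ) (α : ℝ) (W : ℝ[X]) : ℝ[X] :=
  X * (1 - X) * derivative W + (C ((d : ℝ) + 1) * X + C α * (1 - X)) * W

theorem nonneg_eval_pos {p : ℝ[X]} (h : ∀ n, 0 ≤ p.coeff n) (h0 : 0 < p.coeff 0) {x : ℝ}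
    (hx : 0 ≤ x) : 0 < p.eval x := by
  rw [eval_eq_sum_range, Finset.sum_range_succ']
  have h1 : 0 ≤ ∑ k ∈ Finset.range p.natDegree, p.coeff (k + 1) * x ^ (k + 1) :=
    Finset.sum_nonneg fun i _ => mul_nonneg (h _) (pow_nonneg hx _)
  simp only [pow_zero, mul_one]
  linarith

theorem aeval_ofReal (p : ℝ[X]) (x : ℝ) : aeval (x : ℂ) p = ((p.eval x : ℝ) : ℂ) := by
  rw [← Complex.coe_algebraMap, aeval_algebraMap_apply, coe_aeval_eq_eval]

/-- The induction step: all roots of the next numerator are real. -/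
theorem nxt_real (d : ℕ) (α : ℝ) (hα : 0 < α) (W : ℝ[X]) (hW : NegRooted W) (hW0 : W ≠ 0) (z : ℂ)
    (hz : aeval z (nxt d α W) = 0) : z.im = 0 := by
  by_contra him
  have hz0 : z ≠ 0 := by
    rintro rfl
    exact him rfl
  set P : ℂ[X] := W.map (algebraMap ℝ ℂ) with hP
  have hPz : P.eval z ≠ 0 := by
    intro h
    apply him
    exact (hW z (by rw [aeval_def, ← eval_map]; exact h)).1
  have hPsplit : P.Splits := IsAlgClosed.splits P
  have hlog := hPsplit.eval_derivative_div_eval_of_ne_zero hPz
  have hWz : aeval z W = P.eval z := by rw [aeval_def, ← eval_map]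
  have hdz : aeval z (derivative W) = (derivative P).eval z := by
    rw [hP, derivative_map, aeval_def, ← eval_map]
  have h1 : z * (1 - z) * (derivative P).eval z + (((d : ℂ) + 1) * z + α * (1 - z)) * P.eval z
      = 0 := by
    rw [nxt] at hz
    simp only [map_add, map_mul, map_sub, aeval_X, map_one, aeval_C, hWz, hdz,
      Complex.coe_algebraMap] at hz
    push_cast at hz
    exact hz
  have h2 : (1 - z) * ((derivative P).eval z / P.eval z) + ((d : ℂ) + 1) + α * (1 / z - 1) = 0 := by
    field_simp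
    linear_combination h1
  rw [hlog] at h2
  have h3 := congrArg Complex.im h2
  have hroots : ∀ r ∈ P.roots, r.im = 0 ∧ r.re < 0 := by
    intro r hr
    rw [mem_roots (by rw [hP]; exact (Polynomial.map_ne_zero_iff (algebraMap ℝ ℂ).injective).2 hW0)]
      at hr
    exact hW r (by rw [aeval_def, ← eval_map]; exact hr)
  have h4 : ∀ s : Multiset ℂ, (∀ r ∈ s, r.im = 0 ∧ r.re < 0) →
      ∃ c : ℝ, 0 ≤ c ∧ ((1 - z) * (s.map fun r => 1 / (z - r)).sum).im = -z.im * c := by
    intro s
    induction s using Multiset.induction with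
    | empty => intro _; exact ⟨0, le_rfl, by simp⟩
    | cons a s ih =>
      intro hs
      obtain ⟨c, hc, hce⟩ := ih fun r hr => hs r (Multiset.mem_cons_of_mem hr)
      obtain ⟨ha1, ha2⟩ := hs a (Multiset.mem_cons_self a s)
      have hza : Complex.normSq (z - a) ≠ 0 := by
        rw [Ne, Complex.normSq_eq_zero, sub_eq_zero]
        rintro rfl
        exact him ha1
      have hpos : 0 < Complex.normSq (z - a) :=
        lt_of_le_of_ne (Complex.normSq_nonneg _) (Ne.symm hza)
      refine ⟨(1 - a.re) / Complex.normSq (z - a) + c, by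
        have : 0 ≤ (1 - a.re) / Complex.normSq (z - a) := by
          apply div_nonneg (by linarith) hpos.le
        linarith, ?_⟩
      rw [Multiset.map_cons, Multiset.sum_cons, mul_add, Complex.add_im, hce]
      have h5 : ((1 - z) * (1 / (z - a))).im = -z.im * ((1 - a.re) / Complex.normSq (z - a)) := by
        rw [one_div, Complex.mul_im, Complex.inv_im, Complex.inv_re]
        simp only [Complex.sub_re, Complex.sub_im, Complex.one_re, Complex.one_im, ha1]
        field_simp
        ring
      rw [h5]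
      ring
  obtain ⟨c, hc, hce⟩ := h4 P.roots hroots
  have hz2 : 0 < Complex.normSq z := Complex.normSq_pos.2 hz0
  have h6 : ((α : ℂ) * (1 / z - 1)).im = -z.im * (α / Complex.normSq z) := by
    rw [one_div, Complex.mul_im, Complex.sub_im, Complex.inv_im]
    simp only [Complex.ofReal_re, Complex.ofReal_im, Complex.one_im]
    field_simp
    ring
  rw [Complex.add_im, Complex.add_im, hce, h6] at h3
  simp only [Complex.add_im, Complex.natCast_im, Complex.one_im, Complex.zero_im, add_zero] at h3
  have h7 : -z.im * (c + α / Complex.normSq z) = 0 := by linear_combination h3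
  have h8 : 0 < c + α / Complex.normSq z := by positivity
  rcases mul_eq_zero.1 h7 with h9 | h9
  · exact him (by linarith)
  · exact h8.ne' h9

/-- coefficients of the next numerator -/
theorem nxt_coeff_zero (d : ℕ) (α : ℝ) (W : ℝ[X]) : (nxt d α W).coeff 0 = α * W.coeff 0 := by
  simp [nxt, mul_coeff_zero]

theorem nxt_coeff_succ (d : ℕ) (α : ℝ) (W : ℝ[X]) (k : ℕ) :
    (nxt d α W).coeff (k + 1) =
      ((k : ℝ) + 1 + α) * W.coeff (k + 1) + ((d : ℝ) + 1 - k - α) * W.coeff k := by
  have h1 : nxt d α W = X * derivative W - X * (X * derivative W) + C ((d : ℝ) + 1) * (X * W) +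
      C α * W - C α * (X * W) := by
    rw [nxt]; ring
  rw [h1]
  simp only [coeff_add, coeff_sub, coeff_C_mul, coeff_X_mul, coeff_derivative]
  rcases k with _ | k
  · simp
    ring
  · rw [coeff_X_mul, coeff_derivative]
    push_cast
    ring

theorem nxt_good (d : ℕ) (α : ℝ) (hα : 0 < α) (hα1 : α ≤ 1) (W : ℝ[X]) (hW : NegRooted W)
    (hc : ∀ n, 0 ≤ W.coeff n) (hc0 : 0 < W.coeff 0) (hd : W.natDegree ≤ d) :
    NegRooted (nxt d α W) ∧ (∀ n, 0 ≤ (nxt d α W).coeff n) ∧ 0 < (nxt d α W).coeff 0 ∧
      (nxt d α W).natDegree ≤ d + 1 := by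
  have hW0 : W ≠ 0 := by
    rintro rfl
    simp at hc0
  have hcoef : ∀ n, 0 ≤ (nxt d α W).coeff n := by
    intro n
    rcases n with _ | n
    · rw [nxt_coeff_zero]; positivity
    · rw [nxt_coeff_succ]
      have h1 : 0 ≤ ((n : ℝ) + 1 + α) * W.coeff (n + 1) := mul_nonneg (by positivity) (hc _)
      by_cases hn : n ≤ d
      · have h2 : (n : ℝ) ≤ d := by exact_mod_cast hn
        have h3 : 0 ≤ ((d : ℝ) + 1 - n - α) * W.coeff n := mul_nonneg (by linarith) (hc _)
        linarith
      · have h3 : W.coeff n = 0 := coeff_eq_zero_of_natDegree_lt (by omega)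
        rw [h3]
        linarith
  have h00 : 0 < (nxt d α W).coeff 0 := by
    rw [nxt_coeff_zero]; positivity
  refine ⟨fun z hz => ?_, hcoef, h00, ?_⟩
  · have him := nxt_real d α hα W hW hW0 z hz
    refine ⟨him, ?_⟩
    by_contra hre
    push Not at hre
    have hzr : z = (z.re : ℂ) := by
      apply Complex.ext
      · simp
      · simp [him]
    rw [hzr, aeval_ofReal] at hz
    have := nonneg_eval_pos hcoef h00 hre
    rw [Complex.ofReal_eq_zero] at hz
    exact this.ne' hz
  · rw [natDegree_le_iff_coeff_eq_zero]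
    intro n hn
    rcases n with _ | n
    · omega
    · rw [nxt_coeff_succ, coeff_eq_zero_of_natDegree_lt (by omega : W.natDegree < n + 1),
        coeff_eq_zero_of_natDegree_lt (by omega : W.natDegree < n)]
      ring

/-- the even part of a polynomial all of whose roots are negative reals has only real roots -/
theorem contract_real (G : ℝ[X]) (hG : NegRooted G) (hG0 : G ≠ 0) (z : ℂ)
    (hz : aeval z (contract 2 ((1 + X) * G)) = 0) : z.im = 0 ∧ z.re ≤ 0 := by
  by_contra hcon
  set F : ℝ[X] := (1 + X) * G with hF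
  -- a square root with positive real part
  obtain ⟨t, htz, ht⟩ : ∃ t : ℂ, t ^ 2 = z ∧ 0 < t.re := by
    obtain ⟨t, ht⟩ := IsAlgClosed.exists_pow_nat_eq z (n := 2) (by norm_num)
    rcases lt_trichotomy t.re 0 with h | h | h
    · exact ⟨-t, by rw [← ht]; ring, by simpa using h⟩
    · exfalso
      apply hcon
      rw [← ht, pow_two]
      constructor
      · rw [Complex.mul_im, h]; ring
      · rw [Complex.mul_re, h]
        nlinarith [mul_self_nonneg t.im]
    · exact ⟨t, ht, h⟩
  have hexp : aeval t F + aeval (-t) F = 2 * aeval z (contract 2 F) := by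
    have hcn : ∀ n : ℕ, (F.comp (-X)).coeff n = F.coeff n * (-1) ^ n := by
      intro n
      have e : (-X : ℝ[X]) = C (-1) * X := by simp
      rw [e, comp_C_mul_X_coeff]
    have h1 : F + F.comp (-X) = C 2 * expand ℝ 2 (contract 2 F) := by
      ext n
      rw [coeff_add, hcn, coeff_C_mul, coeff_expand (by norm_num)]
      split_ifs with h
      · obtain ⟨m, rfl⟩ := h
        rw [coeff_contract (by norm_num), Nat.mul_div_cancel_left _ (by norm_num : 0 < 2),
          pow_mul, mul_comm m 2]
        norm_num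
        ring
      · rw [mul_zero]
        have hodd : Odd n := by
          rcases Nat.even_or_odd n with h2 | h2
          · exact absurd h2.two_dvd h
          · exact h2
        rw [hodd.neg_one_pow]
        ring
    have h2 := congrArg (aeval t) h1
    rw [map_add (aeval t) F, map_mul (aeval t) (C 2), aeval_C, expand_aeval, htz] at h2
    have h3 : aeval t (F.comp (-X)) = aeval (-t) F := by
      rw [aeval_comp]
      simp
    rw [h3] at h2
    simpa using h2
  rw [hz, mul_zero] at hexp
  have hnorm : ‖aeval t F‖ = ‖aeval (-t) F‖ := by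
    rw [eq_neg_of_add_eq_zero_left hexp, norm_neg]
  set P : ℂ[X] := G.map (algebraMap ℝ ℂ) with hP
  have hPe : ∀ w : ℂ, aeval w G = P.eval w := by
    intro w
    rw [aeval_def, ← eval_map]
  have hP0 : P ≠ 0 := (Polynomial.map_ne_zero_iff (algebraMap ℝ ℂ).injective).2 hG0
  have hPsplit : P.Splits := IsAlgClosed.splits P
  have hroots : ∀ r ∈ P.roots, r.im = 0 ∧ r.re < 0 := by
    intro r hr
    rw [mem_roots hP0] at hr
    exact hG r (by rw [hPe]; exact hr)
  have hcmp : ∀ s : Multiset ℂ, (∀ r ∈ s, r.im = 0 ∧ r.re < 0) →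
      ‖(s.map fun r => -t - r).prod‖ ≤ ‖(s.map fun r => t - r).prod‖ := by
    intro s
    induction s using Multiset.induction with
    | empty => intro _; simp
    | cons a s ih =>
      intro hs
      obtain ⟨ha1, ha2⟩ := hs a (Multiset.mem_cons_self a s)
      rw [Multiset.map_cons, Multiset.map_cons, Multiset.prod_cons, Multiset.prod_cons,
        norm_mul, norm_mul]
      apply mul_le_mul _ (ih fun r hr => hs r (Multiset.mem_cons_of_mem hr)) (norm_nonneg _)
        (norm_nonneg _)
      rw [← Real.sqrt_sq (norm_nonneg (-t - a)), ← Real.sqrt_sq (norm_nonneg (t - a))]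
      apply Real.sqrt_le_sqrt
      rw [← Complex.normSq_eq_norm_sq, ← Complex.normSq_eq_norm_sq, Complex.normSq_apply,
        Complex.normSq_apply]
      simp only [Complex.sub_re, Complex.neg_re, Complex.sub_im, Complex.neg_im, ha1]
      nlinarith [mul_pos ht (neg_pos.2 ha2)]
  have hGle : ‖aeval (-t) G‖ ≤ ‖aeval t G‖ := by
    rw [hPe, hPe, hPsplit.eval_eq_prod_roots, hPsplit.eval_eq_prod_roots, norm_mul, norm_mul]
    exact mul_le_mul_of_nonneg_left (hcmp P.roots hroots) (norm_nonneg _)
  have hGt : 0 < ‖aeval t G‖ := by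
    rw [norm_pos_iff]
    intro h
    exact lt_asymm ht (hG t h).2
  have h1 : ‖(1 : ℂ) + (-t)‖ < ‖(1 : ℂ) + t‖ := by
    rw [← Real.sqrt_sq (norm_nonneg ((1 : ℂ) + (-t))), ← Real.sqrt_sq (norm_nonneg ((1 : ℂ) + t))]
    apply Real.sqrt_lt_sqrt (by positivity)
    rw [← Complex.normSq_eq_norm_sq, ← Complex.normSq_eq_norm_sq, Complex.normSq_apply,
      Complex.normSq_apply]
    simp only [Complex.add_re, Complex.neg_re, Complex.add_im, Complex.neg_im, Complex.one_re,
      Complex.one_im]
    nlinarith
  have h2 : ‖aeval (-t) F‖ < ‖aeval t F‖ := by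
    rw [hF, map_mul, map_mul, norm_mul, norm_mul]
    simp only [map_add, map_one, aeval_X]
    calc ‖(1 : ℂ) + (-t)‖ * ‖aeval (-t) G‖ ≤ ‖(1 : ℂ) + (-t)‖ * ‖aeval t G‖ :=
          mul_le_mul_of_nonneg_left hGle (norm_nonneg _)
      _ < ‖(1 : ℂ) + t‖ * ‖aeval t G‖ := mul_lt_mul_of_pos_right h1 hGt
  exact h2.ne' hnorm

end Pool.Agent.T2H51.LAP
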