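import Mathlib
import Pool.Agent.T2H51.LAP.Roots

/-!
# The generating function identities
-/

set_option autoImplicit false

namespace Pool.Agent.T2H51.LAP

open Polynomial Finset

/-- numerators -/
noncomputable def numer (h : ℕ) : ℕ → ℝ[X]
  | 0 => 1
  | d + 1 => nxt d (((d : ℝ) + 1) / h) (numer h d)

theorem negRooted_one : NegRooted 1 := by
  intro z hz
  simp at hz

theorem NegRooted.mul {p q : ℝ[X]} (hp : NegRooted p) (hq : NegRooted q) : NegRooted (p * q) := by
  intro z hz
  rw [map_mul, mul_eq_zero] at hz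
  rcases hz with h | h
  · exact hp z h
  · exact hq z h

theorem NegRooted.pow {p : ℝ[X]} (hp : NegRooted p) (n : ℕ) : NegRooted (p ^ n) := by
  induction n with
  | zero => rw [pow_zero]; exact negRooted_one
  | succ n ih => rw [pow_succ]; exact ih.mul hp

theorem negRooted_one_add_X : NegRooted (1 + X) := by
  intro z hz
  simp only [map_add, map_one, aeval_X] at hz
  have : z = -1 := by linear_combination hz
  rw [this]
  simp

theorem numer_good (h : ℕ) (hh : 0 < h) (d : ℕ) (hd : d ≤ h) :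
    NegRooted (numer h d) ∧ (∀ n, 0 ≤ (numer h d).coeff n) ∧ 0 < (numer h d).coeff 0 ∧
      (numer h d).natDegree ≤ d := by
  induction d with
  | zero =>
    refine ⟨negRooted_one, fun n => ?_, by simp [numer], by simp [numer]⟩
    rw [numer, coeff_one]
    split_ifs <;> norm_num
  | succ d ih =>
    obtain ⟨h1, h2, h3, h4⟩ := ih (by omega)
    have hh' : (0 : ℝ) < h := by exact_mod_cast hh
    apply nxt_good d _ (by positivity) _ _ h1 h2 h3 h4
    rw [div_le_one hh']
    exact_mod_cast hd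

/-- the series `∑ ∏_{j ≤ d} (w + j/h) X^w` -/
noncomputable def Gs (h d : ℕ) : PowerSeries ℝ :=
  PowerSeries.mk fun w => ∏ j ∈ range d, ((w : ℝ) + ((j : ℝ) + 1) / h)

theorem coe_nxt (d : ℕ) (α : ℝ) (W : ℝ[X]) :
    ((nxt d α W : ℝ[X]) : PowerSeries ℝ) = PowerSeries.X * (1 - PowerSeries.X) *
      PowerSeries.derivative ℝ (W : PowerSeries ℝ) + (PowerSeries.C ((d : ℝ) + 1) * PowerSeries.X +
        PowerSeries.C α * (1 - PowerSeries.X)) * (W : PowerSeries ℝ) := by
  rw [nxt, Polynomial.coe_add, Polynomial.coe_mul, Polynomial.coe_mul, Polynomial.coe_mul,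
    Polynomial.coe_add, Polynomial.coe_mul, Polynomial.coe_mul, Polynomial.coe_sub,
    Polynomial.coe_X, Polynomial.coe_one, Polynomial.coe_C, Polynomial.coe_C,
    PowerSeries.derivative_coe]

theorem Gs_eq (h d : ℕ) : (1 - PowerSeries.X) ^ (d + 1) * Gs h d = (numer h d : PowerSeries ℝ) := by
  induction d with
  | zero =>
    rw [numer, Polynomial.coe_one, zero_add, pow_one]
    have : Gs h 0 = PowerSeries.mk 1 := by
      ext n
      simp [Gs]
    rw [this, mul_comm]
    exact PowerSeries.mk_one_mul_one_sub_eq_one ℝ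
  | succ d ih =>
    rw [numer, coe_nxt, ← ih]
    have hG : Gs h (d + 1) = PowerSeries.X * PowerSeries.derivative ℝ (Gs h d) +
        PowerSeries.C (((d : ℝ) + 1) / h) * Gs h d := by
      ext n
      rw [map_add, PowerSeries.coeff_C_mul]
      rcases n with _ | n
      · rw [PowerSeries.coeff_zero_X_mul, Gs, Gs, PowerSeries.coeff_mk, PowerSeries.coeff_mk,
          prod_range_succ]
        push_cast
        ring
      · rw [PowerSeries.coeff_succ_X_mul, PowerSeries.coeff_derivative, Gs, Gs,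
          PowerSeries.coeff_mk, PowerSeries.coeff_mk, prod_range_succ]
        push_cast
        ring
    have hder : PowerSeries.derivative ℝ ((1 - PowerSeries.X) ^ (d + 1) * Gs h d) =
        (1 - PowerSeries.X) ^ (d + 1) * PowerSeries.derivative ℝ (Gs h d) -
          PowerSeries.C ((d : ℝ) + 1) * (1 - PowerSeries.X) ^ d * Gs h d := by
      have h1 := (PowerSeries.derivative ℝ).leibniz ((1 - PowerSeries.X) ^ (d + 1)) (Gs h d)
      have h2 : PowerSeries.derivative ℝ ((1 - PowerSeries.X : PowerSeries ℝ) ^ (d + 1)) =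
          - (PowerSeries.C ((d : ℝ) + 1) * (1 - PowerSeries.X) ^ d) := by
        have h3 := (PowerSeries.derivative ℝ).leibniz_pow (1 - PowerSeries.X : PowerSeries ℝ) (d + 1)
        rw [h3]
        simp
      rw [h1, h2]
      simp only [smul_eq_mul]
      ring
    rw [hG, hder]
    ring

/-- even part of a power series -/
noncomputable def evens (A : PowerSeries ℝ) : PowerSeries ℝ :=
  PowerSeries.mk fun k => PowerSeries.coeff (2 * k) A

theorem evens_mul (A : PowerSeries ℝ) :
    evens (A * (1 - PowerSeries.X ^ 2)) = evens A * (1 - PowerSeries.X) := by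
  ext n
  rw [mul_sub, mul_sub, mul_one, mul_one, evens, PowerSeries.coeff_mk, map_sub, map_sub, evens,
    PowerSeries.coeff_mk]
  congr 1
  rcases n with _ | n
  · simp [PowerSeries.coeff_mul_X_pow']
  · rw [PowerSeries.coeff_succ_mul_X, PowerSeries.coeff_mk, PowerSeries.coeff_mul_X_pow']
    rw [if_pos (by omega)]
    congr 1

theorem evens_mul_pow (A : PowerSeries ℝ) (m : ℕ) :
    evens (A * (1 - PowerSeries.X ^ 2) ^ m) = evens A * (1 - PowerSeries.X) ^ m := by
  induction m with
  | zero => simp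
  | succ m ih => rw [pow_succ, ← mul_assoc, evens_mul, ih, pow_succ, mul_assoc]

theorem evens_coe (F : ℝ[X]) : evens (F : PowerSeries ℝ) = (contract 2 F : ℝ[X]) := by
  ext n
  rw [evens, PowerSeries.coeff_mk, Polynomial.coeff_coe, Polynomial.coeff_coe,
    coeff_contract (by norm_num), mul_comm]

/-- number of vectors in `ℕ^h` with sum `h w` -/
def rr (h w : ℕ) : ℕ := (h * w + (h - 1)).choose (h - 1)

noncomputable def Rs (h : ℕ) : PowerSeries ℝ := PowerSeries.mk fun w => (rr h w : ℝ)

theorem Rs_eq (h : ℕ) (hh : 0 < h) :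
    Rs h = PowerSeries.C ((h : ℝ) ^ (h - 1) / ((h - 1).factorial : ℝ)) * Gs h (h - 1) := by
  have hh' : (h : ℝ) ≠ 0 := by exact_mod_cast hh.ne'
  ext w
  rw [PowerSeries.coeff_C_mul, Rs, Gs, PowerSeries.coeff_mk, PowerSeries.coeff_mk]
  have h1 := Nat.ascFactorial_eq_factorial_mul_choose (h * w) (h - 1)
  rw [Nat.ascFactorial_eq_prod_range] at h1
  have h2 : ((∏ i ∈ range (h - 1), (h * w + 1 + i) : ℕ) : ℝ) =
      ((h - 1).factorial : ℝ) * (rr h w : ℝ) := by
    rw [h1]; push_cast; rfl
  have h3 : ((h - 1).factorial : ℝ) ≠ 0 := by exact_mod_cast (Nat.factorial_pos _).ne'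
  have h4 : (h : ℝ) ^ (h - 1) * ∏ j ∈ range (h - 1), ((w : ℝ) + ((j : ℝ) + 1) / h) =
      ((∏ i ∈ range (h - 1), (h * w + 1 + i) : ℕ) : ℝ) := by
    push_cast
    rw [← card_range (h - 1), ← prod_const, card_range, ← prod_mul_distrib]
    apply prod_congr rfl
    intro j _
    field_simp
    ring
  rw [div_mul_eq_mul_div, h4, h2]
  field_simp

/-- the main statement: the series with coefficients `[X^{2k}] (1 - X) R²` has a real-rooted
numerator -/
theorem main_series (h : ℕ) (hh : 0 < h) :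
    ∃ H : ℝ[X], evens ((1 - PowerSeries.X) * Rs h ^ 2) * (1 - PowerSeries.X) ^ (2 * h - 1) =
      (H : PowerSeries ℝ) ∧
      ∀ z : ℂ, aeval z H = 0 → z.im = 0 ∧ z.re ≤ 0 := by
  set c : ℝ := (h : ℝ) ^ (h - 1) / ((h - 1).factorial : ℝ) with hc
  have hcpos : 0 < c := by
    have : (0 : ℝ) < h := by exact_mod_cast hh
    positivity
  obtain ⟨hn, _, h0, _⟩ := numer_good h hh (h - 1) (by omega)
  set E : ℝ[X] := C c * numer h (h - 1) with hE
  have hEneg : NegRooted E := by
    intro z hz
    rw [hE, map_mul, aeval_C, mul_eq_zero] at hz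
    rcases hz with hz | hz
    · exfalso
      rw [Complex.coe_algebraMap, Complex.ofReal_eq_zero] at hz
      exact hcpos.ne' hz
    · exact hn z hz
  have hE0 : E ≠ 0 := by
    intro h1
    have h2 := congrArg (fun p => coeff p 0) h1
    simp only [hE, coeff_C_mul, coeff_zero] at h2
    exact (mul_pos hcpos h0).ne' h2
  have hRE : (1 - PowerSeries.X) ^ h * Rs h = (E : PowerSeries ℝ) := by
    rw [Rs_eq h hh, hE, Polynomial.coe_mul, Polynomial.coe_C, ← Gs_eq h (h - 1),
      Nat.sub_add_cancel hh]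
    ring
  set G : ℝ[X] := E ^ 2 * (1 + X) ^ (2 * h - 2) with hG
  have hGneg : NegRooted G := (hEneg.pow 2).mul (negRooted_one_add_X.pow _)
  have hG0 : G ≠ 0 := by
    apply mul_ne_zero (pow_ne_zero _ hE0)
    apply pow_ne_zero
    intro h1
    have h2 := congrArg (fun p => coeff p 0) h1
    simp at h2
  refine ⟨contract 2 ((1 + X) * G), ?_, contract_real G hGneg hG0⟩
  rw [← evens_coe, ← evens_mul_pow]
  congr 1
  have e1 : (1 - PowerSeries.X ^ 2 : PowerSeries ℝ) = (1 - PowerSeries.X) * (1 + PowerSeries.X) := by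
    ring
  have e2 : (1 - PowerSeries.X) * (1 - PowerSeries.X) ^ (2 * h - 1) =
      ((1 - PowerSeries.X) ^ h * (1 - PowerSeries.X) ^ h : PowerSeries ℝ) := by
    rw [← pow_succ', ← pow_add]
    congr 1
    omega
  rw [e1, mul_pow]
  have e3 : (1 - PowerSeries.X) * Rs h ^ 2 * ((1 - PowerSeries.X) ^ (2 * h - 1) *
      (1 + PowerSeries.X) ^ (2 * h - 1)) = ((1 - PowerSeries.X) *
        (1 - PowerSeries.X) ^ (2 * h - 1)) * Rs h ^ 2 * (1 + PowerSeries.X) ^ (2 * h - 1) := by
    ring
  have e4 : (1 + PowerSeries.X : PowerSeries ℝ) ^ (2 * h - 1) =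
      (1 + PowerSeries.X) * (1 + PowerSeries.X) ^ (2 * h - 2) := by
    rw [← pow_succ']
    congr 1
    omega
  have e5 : (((1 + X) * G : ℝ[X]) : PowerSeries ℝ) = (1 + PowerSeries.X) *
      ((E : PowerSeries ℝ) ^ 2 * (1 + PowerSeries.X) ^ (2 * h - 2)) := by
    rw [hG]
    push_cast
    rfl
  rw [e3, e2, e4, e5, ← hRE]
  ring

end Pool.Agent.T2H51.LAP
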