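import Mathlib
import Pool.Agent.T2H51.LAP.Series

/-!
# Counting pairs of integer vectors
-/

set_option autoImplicit false

namespace Pool.Agent.T2H51.LAP

open Finset

theorem card_piAntidiag_fin (h n : ℕ) (hh : 0 < h) :
    #(piAntidiag (univ : Finset (Fin h)) n) = (n + (h - 1)).choose (h - 1) := by
  have h1 : #(piAntidiag (univ : Finset (Fin h)) n) =
      #((univ : Finset (Fin h)).finsuppAntidiag n) := by
    rw [finsuppAntidiag, card_map]
    simp
  rw [h1, card_finsuppAntidiag_nat_eq_choose, card_univ, Fintype.card_fin]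
  have h2 : h + n - 1 = n + (h - 1) := by omega
  rw [h2]
  exact Nat.choose_symm_of_eq_add (by omega)

/-- vectors in `ℕ^h` with sum `h u` -/
def AA (h u : ℕ) : Finset (Fin h → ℕ) := piAntidiag univ (h * u)

theorem mem_AA {h u : ℕ} {p : Fin h → ℕ} : p ∈ AA h u ↔ ∑ i, p i = h * u := by
  simp [AA, mem_piAntidiag]

theorem card_AA (h u : ℕ) (hh : 0 < h) : #(AA h u) = rr h u := card_piAntidiag_fin h _ hh

/-- those with a zero entry -/
def AO (h u : ℕ) : Finset (Fin h → ℕ) := {p ∈ AA h u | ∃ i, p i = 0}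

theorem card_AO_zero (h : ℕ) (hh : 0 < h) : #(AO h 0) = rr h 0 := by
  rw [← card_AA h 0 hh, AO, filter_true_of_mem]
  intro p hp
  rw [mem_AA, mul_zero, sum_eq_zero_iff] at hp
  exact ⟨⟨0, hh⟩, hp _ (mem_univ _)⟩

theorem card_AO_succ (h u : ℕ) (hh : 0 < h) : #(AO h (u + 1)) + rr h u = rr h (u + 1) := by
  classical
  rw [← card_AA h u hh, ← card_AA h (u + 1) hh,
    ← card_filter_add_card_filter_not (s := AA h (u + 1)) (fun p => ∃ i, p i = 0), AO]
  congr 1
  refine card_bij (fun p _ => fun i => p i + 1) ?_ ?_ ?_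
  · intro p hp
    rw [mem_AA] at hp
    rw [mem_filter, mem_AA]
    refine ⟨?_, by simp⟩
    rw [sum_add_distrib, hp]
    simp
    ring
  · intro p _ q _ hpq
    funext i
    have := congrFun hpq i
    omega
  · intro q hq
    rw [mem_filter, mem_AA] at hq
    obtain ⟨hq1, hq2⟩ := hq
    push Not at hq2
    refine ⟨fun i => q i - 1, ?_, ?_⟩
    · rw [mem_AA]
      have h1 : ∑ i, (q i - 1 + 1) = h * (u + 1) := by
        rw [← hq1]
        exact sum_congr rfl fun i _ => Nat.sub_add_cancel (Nat.pos_of_ne_zero (hq2 i))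
      rw [sum_add_distrib] at h1
      simp at h1
      rw [Nat.mul_add, mul_one] at h1
      omega
    · funext i
      exact Nat.sub_add_cancel (Nat.pos_of_ne_zero (hq2 i))

/-- the pairs to be counted -/
def SS (h k : ℕ) : Set ((Fin h → ℤ) × (Fin h → ℤ)) :=
  {x | ∑ i, x.1 i = h * k ∧ ∑ i, x.2 i = h * k ∧ ∃ s : ℤ, (∀ i, 0 ≤ x.1 i + s) ∧ ∀ i, 0 ≤ x.2 i - s}

/-- the model -/
def TT (h k : ℕ) : Finset (Σ _ : ℕ × ℕ, (Fin h → ℕ) × (Fin h → ℕ)) :=
  (antidiagonal (2 * k)).sigma fun uw => AO h uw.1 ×ˢ AA h uw.2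

/-- the bijection -/
def ff (h k : ℕ) (x : Σ _ : ℕ × ℕ, (Fin h → ℕ) × (Fin h → ℕ)) : (Fin h → ℤ) × (Fin h → ℤ) :=
  (fun i => (x.2.1 i : ℤ) - ((x.1.1 : ℤ) - k), fun i => (x.2.2 i : ℤ) + ((x.1.1 : ℤ) - k))

theorem ff_image (h k : ℕ) (hh : 0 < h) : ff h k '' (TT h k : Set _) = SS h k := by
  ext ⟨p, q⟩
  constructor
  · rintro ⟨⟨⟨u, w⟩, ⟨p', q'⟩⟩, hx, heq⟩
    rw [mem_coe, TT, mem_sigma, HasAntidiagonal.mem_antidiagonal, mem_product, AO, mem_filter, mem_AA, mem_AA] at hx
    obtain ⟨h1, ⟨h2, _⟩, h3⟩ := hx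
    simp only at h1 h2 h3
    rw [ff, Prod.mk.injEq] at heq
    obtain ⟨rfl, rfl⟩ := heq
    have h4 : (u : ℤ) + w = 2 * k := by exact_mod_cast h1
    have h2' : ∑ i, (p' i : ℤ) = h * u := by exact_mod_cast h2
    have h3' : ∑ i, (q' i : ℤ) = h * w := by exact_mod_cast h3
    refine ⟨?_, ?_, (u : ℤ) - k, ?_, ?_⟩
    · simp only [sum_sub_distrib, h2', sum_const, card_univ, Fintype.card_fin, nsmul_eq_mul]
      ring
    · simp only [sum_add_distrib, h3', sum_const, card_univ, Fintype.card_fin, nsmul_eq_mul]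
      have : (w : ℤ) = 2 * k - u := by linarith
      rw [this]
      ring
    · intro i
      simp
    · intro i
      simp
  · rintro ⟨hp, hq, s, hs1, hs2⟩
    simp only at hp hq hs1 hs2
    have : Nonempty (Fin h) := ⟨⟨0, hh⟩⟩
    obtain ⟨i0, _, hi0⟩ := exists_min_image (univ : Finset (Fin h)) p univ_nonempty
    have hmin : ∀ i, p i0 ≤ p i := fun i => hi0 i (mem_univ i)
    have hh' : (0 : ℤ) < h := by exact_mod_cast hh
    have hm1 : p i0 ≤ k := by
      have h1 : ∑ _i : Fin h, p i0 ≤ ∑ i, p i := sum_le_sum fun i _ => hmin i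
      rw [hp, sum_const, card_univ, Fintype.card_fin, nsmul_eq_mul] at h1
      exact le_of_mul_le_mul_left h1 hh'
    have hm2 : - p i0 ≤ k := by
      have h1 : ∑ _i : Fin h, (- p i0) ≤ ∑ i, q i := sum_le_sum fun i _ => by
        have := hs1 i0
        have := hs2 i
        linarith
      rw [hq, sum_const, card_univ, Fintype.card_fin, nsmul_eq_mul] at h1
      exact le_of_mul_le_mul_left h1 hh'
    obtain ⟨u, hu⟩ : ∃ u : ℕ, (u : ℤ) = k - p i0 := ⟨(k - p i0).toNat, by omega⟩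
    obtain ⟨w, hw⟩ : ∃ w : ℕ, (w : ℤ) = k + p i0 := ⟨(k + p i0).toNat, by omega⟩
    obtain ⟨p', hp'⟩ : ∃ p' : Fin h → ℕ, ∀ i, (p' i : ℤ) = p i - p i0 :=
      ⟨fun i => (p i - p i0).toNat, fun i => by have := hmin i; simp; omega⟩
    obtain ⟨q', hq'⟩ : ∃ q' : Fin h → ℕ, ∀ i, (q' i : ℤ) = q i + p i0 :=
      ⟨fun i => (q i + p i0).toNat, fun i => by
        have := hs1 i0
        have := hs2 i
        simp; omega⟩
    refine ⟨⟨(u, w), (p', q')⟩, ?_, ?_⟩
    · rw [mem_coe, TT, mem_sigma, HasAntidiagonal.mem_antidiagonal, mem_product, AO, mem_filter, mem_AA, mem_AA]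
      refine ⟨?_, ⟨?_, i0, ?_⟩, ?_⟩
      · simp only
        have : (u : ℤ) + w = 2 * k := by rw [hu, hw]; ring
        exact_mod_cast this
      · simp only
        have : ∑ i, (p' i : ℤ) = h * u := by
          simp only [hp', sum_sub_distrib, hp, sum_const, card_univ, Fintype.card_fin,
            nsmul_eq_mul, hu]
          ring
        exact_mod_cast this
      · have := hp' i0
        simp only
        omega
      · simp only
        have : ∑ i, (q' i : ℤ) = h * w := by
          simp only [hq', sum_add_distrib, hq, sum_const, card_univ, Fintype.card_fin,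
            nsmul_eq_mul, hw]
          ring
        exact_mod_cast this
    · rw [ff, Prod.mk.injEq]
      constructor
      · funext i
        simp only [hp', hu]
        ring
      · funext i
        simp only [hq', hu]
        ring

theorem ff_inj (h k : ℕ) : Set.InjOn (ff h k) (TT h k : Set _) := by
  rintro ⟨⟨u, w⟩, ⟨p, q⟩⟩ hx ⟨⟨u', w'⟩, ⟨p', q'⟩⟩ hx' heq
  rw [mem_coe, TT, mem_sigma, HasAntidiagonal.mem_antidiagonal, mem_product, AO, mem_filter, mem_AA, mem_AA]
    at hx hx'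
  obtain ⟨h1, ⟨h2, i, hi⟩, h3⟩ := hx
  obtain ⟨h1', ⟨h2', i', hi'⟩, h3'⟩ := hx'
  simp only at h1 h2 h3 hi h1' h2' h3' hi'
  rw [ff, ff, Prod.mk.injEq] at heq
  obtain ⟨e1, e2⟩ := heq
  have a1 := congrFun e1 i
  have a2 := congrFun e1 i'
  simp only at a1 a2
  have huu : u = u' := by omega
  subst huu
  have hww : w = w' := by omega
  subst hww
  have hpp : p = p' := by
    funext j
    have := congrFun e1 j
    simp only at this
    omega
  have hqq : q = q' := by
    funext j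
    have := congrFun e2 j
    simp only at this
    omega
  rw [hpp, hqq]

/-- the count -/
theorem ncard_SS (h k : ℕ) (hh : 0 < h) :
    ((SS h k).ncard : ℝ) = PowerSeries.coeff (2 * k) ((1 - PowerSeries.X) * Rs h ^ 2) := by
  rw [← ff_image h k hh, (ff_inj h k).ncard_image, Set.ncard_coe_finset, TT,
    card_sigma]
  have h1 : (1 - PowerSeries.X) * Rs h ^ 2 = ((1 - PowerSeries.X) * Rs h) * Rs h := by ring
  rw [h1, PowerSeries.coeff_mul]
  push_cast
  apply sum_congr rfl
  rintro ⟨u, w⟩ _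
  simp only
  rw [card_product, card_AA h w hh]
  push_cast
  have h2 : PowerSeries.coeff w (Rs h) = (rr h w : ℝ) := by rw [Rs, PowerSeries.coeff_mk]
  rw [h2]
  congr 1
  rcases u with _ | u
  · rw [card_AO_zero h hh]
    simp [Rs]
  · have h3 := card_AO_succ h u hh
    have h4 : (#(AO h (u + 1)) : ℝ) + rr h u = rr h (u + 1) := by exact_mod_cast h3
    rw [sub_mul, one_mul, map_sub, PowerSeries.coeff_succ_X_mul, Rs, PowerSeries.coeff_mk,
      PowerSeries.coeff_mk]
    linarith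

end Pool.Agent.T2H51.LAP
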