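import Mathlib

/-!
# Laplacian polytopes of boundaries of simplices
-/

set_option autoImplicit false

namespace Pool.Agent.T2H51.LAP

open Finset
open scoped Pointwise

/-- the faces with `k` vertices of the simplex with vertex set `Fin (d + 2)`, that is, the
`(k - 1)`-dimensional faces -/
abbrev Face (d k : ℕ) : Type := {s : Finset (Fin (d + 2)) // s.card = k}

/-- The boundary map `∂_d` of the boundary complex of the `(d + 1)`-simplex: the column of a
`d`-face `σ = {j_1 < ⋯ < j_{d+1}}` is `∑ (-1)^(k-1) e_{σ \ {j_k}}`; here `k - 1` is the number of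
elements of `σ` that are smaller than `j_k`. -/
def boundary (d : ℕ) : Matrix (Face d d) (Face d (d + 1)) ℤ := fun τ σ =>
  ∑ j ∈ σ.1, if σ.1.erase j = τ.1 then (-1) ^ #{i ∈ σ.1 | i < j} else 0

/-- The `d`-th Laplacian matrix `∂_dᵀ ∂_d`. -/
def laplacian (d : ℕ) : Matrix (Face d (d + 1)) (Face d (d + 1)) ℤ :=
  (boundary d).transpose * boundary d

/-- The Laplacian polytope: the convex hull of the columns of the Laplacian matrix. -/
def lapPolytope (d : ℕ) : Set (Face d (d + 1) → ℝ) :=
  convexHull ℝ (Set.range fun σ => fun τ => ((laplacian d τ σ : ℤ) : ℝ))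

/-- The number of lattice points of the dilate `k P`. -/
noncomputable def latticeCount {ι : Type*} (P : Set (ι → ℝ)) (k : ℕ) : ℕ :=
  Set.ncard {x : ι → ℝ | x ∈ (k : ℝ) • P ∧ ∀ i, ∃ z : ℤ, x i = z}

/-- `f` is the `h*`-polynomial of `P`: `∑_k |kP ∩ ℤ^n| x^k = f(x) / (1 - x)^(dim P + 1)`, where
`dim P` is the dimension of the affine span of `P`. -/
def IsHStar {ι : Type*} (P : Set (ι → ℝ)) (f : Polynomial ℝ) : Prop :=
  (PowerSeries.mk fun k => (latticeCount P k : ℝ)) *
    (1 - PowerSeries.X) ^ (Module.finrank ℝ (vectorSpan ℝ P) + 1) = (f : PowerSeries ℝ)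

end Pool.Agent.T2H51.LAP
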