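import Mathlib
import Pool.Agent.T2H51.LAP.Count
import Pool.Agent.T2H51.LAP.Defs

/-!
# The lattice points of the dilates of the Laplacian polytope
-/

set_option autoImplicit false

namespace Pool.Agent.T2H51.LAP

open Finset

/-- the facets are indexed by the missing vertex -/
def face (d : ℕ) (a : Fin (d + 2)) : Face d (d + 1) :=
  ⟨univ.erase a, by rw [card_erase_of_mem (mem_univ a), card_univ, Fintype.card_fin]; omega⟩

theorem face_inj (d : ℕ) : Function.Injective (face d) := by
  intro a b hab
  have h1 : univ.erase a = univ.erase b := congrArg Subtype.val hab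
  by_contra hne
  have h2 : b ∈ univ.erase a := mem_erase.2 ⟨Ne.symm hne, mem_univ _⟩
  rw [h1] at h2
  exact (mem_erase.1 h2).1 rfl

theorem face_surj (d : ℕ) : Function.Surjective (face d) := by
  rintro ⟨s, hs⟩
  have h1 : #(sᶜ) = 1 := by
    rw [card_compl, hs, Fintype.card_fin]
    omega
  obtain ⟨a, ha⟩ := card_eq_one.1 h1
  refine ⟨a, Subtype.ext ?_⟩
  change univ.erase a = s
  rw [← compl_compl s, ha]
  ext x
  simp

/-- sign -/
def sg {d : ℕ} (a : Fin (d + 2)) : ℤ := (-1) ^ (a : ℕ)

theorem sg_mul_self {d : ℕ} (a : Fin (d + 2)) : sg a * sg a = 1 := by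
  rw [sg, ← pow_add, ← two_mul, pow_mul]
  simp

theorem card_lt_univ (d : ℕ) (j : Fin (d + 2)) : #{i : Fin (d + 2) | i < j} = j := by
  rw [← Fin.card_Iio j]
  congr 1
  ext i
  simp

theorem eps (d : ℕ) (a j : Fin (d + 2)) (_h : j ≠ a) :
    ((-1 : ℤ)) ^ #{i ∈ univ.erase a | i < j} = if a < j then - sg j else sg j := by
  have h1 : {i ∈ univ.erase a | i < j} = ({i : Fin (d + 2) | i < j} : Finset _).erase a := by
    ext i
    simp only [mem_filter, mem_erase, mem_univ, true_and, and_true]
  rw [h1]
  split_ifs with haj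
  · rw [card_erase_of_mem (by simpa using haj), card_lt_univ, sg]
    have h2 : 0 < (j : ℕ) := lt_of_le_of_lt (Nat.zero_le _) haj
    obtain ⟨m, hm⟩ : ∃ m, (j : ℕ) = m + 1 := ⟨(j : ℕ) - 1, by omega⟩
    rw [hm, Nat.add_sub_cancel, pow_succ]
    ring
  · rw [erase_eq_of_notMem (by simpa using haj), card_lt_univ, sg]

theorem boundary_face (d : ℕ) (τ : Face d d) (a : Fin (d + 2)) :
    boundary d τ (face d a) = ∑ j ∈ univ.erase a, if (univ.erase a).erase j = τ.1 then
        (-1 : ℤ) ^ #{i ∈ univ.erase a | i < j} else 0 := rfl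

theorem laplacian_face (d : ℕ) (a b : Fin (d + 2)) :
    laplacian d (face d a) (face d b) = (if a = b then (d : ℤ) + 2 else 0) - sg a * sg b := by
  rw [laplacian, Matrix.mul_apply]
  simp only [Matrix.transpose_apply, boundary_face]
  have hcard : ∀ j, j ≠ a → #((univ.erase a).erase j) = d := by
    intro j hj
    rw [card_erase_of_mem (mem_erase.2 ⟨hj, mem_univ _⟩), card_erase_of_mem (mem_univ a),
      card_univ, Fintype.card_fin]
    omega
  -- expand the first factor
  have h1 : ∀ τ : Face d d,
      (∑ j ∈ univ.erase a, if (univ.erase a).erase j = τ.1 then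
        (-1 : ℤ) ^ #{i ∈ univ.erase a | i < j} else 0) *
      (∑ j ∈ univ.erase b, if (univ.erase b).erase j = τ.1 then
        (-1 : ℤ) ^ #{i ∈ univ.erase b | i < j} else 0) =
      ∑ j ∈ univ.erase a, if (univ.erase a).erase j = τ.1 then
        (-1 : ℤ) ^ #{i ∈ univ.erase a | i < j} *
        (∑ l ∈ univ.erase b, if (univ.erase b).erase l = (univ.erase a).erase j then
        (-1 : ℤ) ^ #{i ∈ univ.erase b | i < l} else 0) else 0 := by
    intro τ
    rw [sum_mul]
    apply sum_congr rfl
    intro j _
    split_ifs with h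
    · rw [h]
    · rw [zero_mul]
  rw [sum_congr rfl fun τ _ => h1 τ, sum_comm]
  have h2 : ∀ j ∈ univ.erase a, (∑ τ : Face d d, if (univ.erase a).erase j = τ.1 then
        (-1 : ℤ) ^ #{i ∈ univ.erase a | i < j} *
        (∑ l ∈ univ.erase b, if (univ.erase b).erase l = (univ.erase a).erase j then
        (-1 : ℤ) ^ #{i ∈ univ.erase b | i < l} else 0) else 0) =
      (-1 : ℤ) ^ #{i ∈ univ.erase a | i < j} *
        (∑ l ∈ univ.erase b, if (univ.erase b).erase l = (univ.erase a).erase j then
        (-1 : ℤ) ^ #{i ∈ univ.erase b | i < l} else 0) := by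
    intro j hj
    rw [sum_eq_single (⟨(univ.erase a).erase j, hcard j (mem_erase.1 hj).1⟩ : Face d d)]
    · simp
    · intro τ _ hτ
      rw [if_neg]
      intro h
      exact hτ (Subtype.ext h.symm)
    · intro h
      exact absurd (mem_univ _) h
  rw [sum_congr rfl h2]
  by_cases hab : a = b
  · subst hab
    rw [if_pos rfl, sg_mul_self]
    have h3 : ∀ j ∈ univ.erase a, (-1 : ℤ) ^ #{i ∈ univ.erase a | i < j} *
        (∑ l ∈ univ.erase a, if (univ.erase a).erase l = (univ.erase a).erase j then
        (-1 : ℤ) ^ #{i ∈ univ.erase a | i < l} else 0) = 1 := by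
      intro j hj
      rw [sum_eq_single j]
      · rw [if_pos rfl, ← pow_add, ← two_mul, pow_mul]
        simp
      · intro l hl hlj
        rw [if_neg]
        intro h
        have h5 : l ∈ (univ.erase a).erase j := mem_erase.2 ⟨hlj, hl⟩
        rw [← h] at h5
        exact (mem_erase.1 h5).1 rfl
      · intro h
        exact absurd hj h
    rw [sum_congr rfl h3, sum_const, card_erase_of_mem (mem_univ a), card_univ, Fintype.card_fin]
    simp
    ring
  · rw [if_neg hab, zero_sub]
    have hb : b ∈ univ.erase a := mem_erase.2 ⟨Ne.symm hab, mem_univ _⟩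
    have ha : a ∈ univ.erase b := mem_erase.2 ⟨hab, mem_univ _⟩
    rw [sum_eq_single b]
    · rw [sum_eq_single a]
      · rw [if_pos (erase_right_comm), eps d a b (Ne.symm hab), eps d b a hab]
        rcases lt_or_gt_of_ne hab with h | h
        · rw [if_pos h, if_neg (not_lt.2 h.le)]
          ring
        · rw [if_neg (not_lt.2 h.le), if_pos h]
          ring
      · intro l hl hla
        rw [if_neg]
        intro h
        have h5 : l ∈ (univ.erase a).erase b :=
          mem_erase.2 ⟨(mem_erase.1 hl).1, mem_erase.2 ⟨hla, mem_univ _⟩⟩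
        rw [← h] at h5
        exact (mem_erase.1 h5).1 rfl
      · intro h
        exact absurd ha h
    · intro j hj hjb
      apply mul_eq_zero_of_right
      apply sum_eq_zero
      intro l hl
      rw [if_neg]
      intro h
      have h5 : b ∈ (univ.erase a).erase j := mem_erase.2 ⟨Ne.symm hjb, hb⟩
      rw [← h] at h5
      exact (mem_erase.1 (mem_erase.1 h5).2).1 rfl
    · intro h
      exact absurd hb h

end Pool.Agent.T2H51.LAP
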