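import Mathlib
import Pool.Agent.T2H51.LAP.Geometry

/-!
# Lattice points and dimension of the Laplacian polytope, `d = 2 m`
-/

set_option autoImplicit false

namespace Pool.Agent.T2H51.LAP

open Finset
open scoped Pointwise

/-- index type -/
abbrev II (m : ℕ) : Type := Fin (m + 1) ⊕ Fin (m + 1)

/-- even and odd positions -/
def idx (m : ℕ) : II m → Fin (2 * m + 2) :=
  Sum.elim (fun i => ⟨2 * (i : ℕ), by omega⟩) (fun i => ⟨2 * (i : ℕ) + 1, by omega⟩)

theorem idx_bij (m : ℕ) : Function.Bijective (idx m) := by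
  constructor
  · rintro (i | i) (j | j) h
    · have h1 : 2 * (i : ℕ) = 2 * (j : ℕ) := congrArg Fin.val h
      congr 1
      exact Fin.ext (by omega)
    · have h1 : 2 * (i : ℕ) = 2 * (j : ℕ) + 1 := congrArg Fin.val h
      omega
    · have h1 : 2 * (i : ℕ) + 1 = 2 * (j : ℕ) := congrArg Fin.val h
      omega
    · have h1 : 2 * (i : ℕ) + 1 = 2 * (j : ℕ) + 1 := congrArg Fin.val h
      congr 1
      exact Fin.ext (by omega)
  · rintro ⟨a, ha⟩
    rcases Nat.even_or_odd' a with ⟨b, rfl | rfl⟩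
    · exact ⟨Sum.inl ⟨b, by omega⟩, rfl⟩
    · exact ⟨Sum.inr ⟨b, by omega⟩, rfl⟩

/-- the facets, indexed -/
noncomputable def EE (m : ℕ) : II m ≃ Face (2 * m) (2 * m + 1) :=
  Equiv.ofBijective (fun i => face (2 * m) (idx m i))
    (Function.Bijective.comp ⟨face_inj _, face_surj _⟩ (idx_bij m))

/-- the sign vector -/
def ww (m : ℕ) : II m → ℝ := Sum.elim (fun _ => 1) (fun _ => -1)

theorem sg_idx (m : ℕ) (i : II m) : ((sg (idx m i) : ℤ) : ℝ) = ww m i := by
  rcases i with i | i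
  · simp [sg, idx, ww, pow_mul]
  · simp [sg, idx, ww, pow_mul, pow_succ]

theorem lap_EE (m : ℕ) (i j : II m) : ((laplacian (2 * m) (EE m i) (EE m j) : ℤ) : ℝ) =
    (if i = j then (2 * m + 2 : ℝ) else 0) - ww m i * ww m j := by
  have h1 : EE m i = face (2 * m) (idx m i) := rfl
  have h2 : EE m j = face (2 * m) (idx m j) := rfl
  rw [h1, h2, laplacian_face, ← sg_idx, ← sg_idx]
  by_cases h : i = j
  · subst h
    simp
  · have h3 : idx m i ≠ idx m j := fun h4 => h ((idx_bij m).1 h4)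
    simp [h, h3]

/-- the linear map given by the Laplacian -/
noncomputable def AM (m : ℕ) : (II m → ℝ) →ₗ[ℝ] (Face (2 * m) (2 * m + 1) → ℝ) where
  toFun x := fun τ => (2 * m + 2 : ℝ) * x ((EE m).symm τ) -
    ww m ((EE m).symm τ) * ∑ j, ww m j * x j
  map_add' x y := by
    funext τ
    simp only [Pi.add_apply, mul_add, sum_add_distrib]
    ring
  map_smul' c x := by
    funext τ
    simp only [Pi.smul_apply, smul_eq_mul, RingHom.id_apply]
    have : ∑ j, ww m j * (c * x j) = c * ∑ j, ww m j * x j := by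
      rw [mul_sum]
      exact sum_congr rfl fun j _ => by ring
    rw [this]
    ring

theorem AM_apply (m : ℕ) (x : II m → ℝ) (i : II m) :
    AM m x (EE m i) = (2 * m + 2 : ℝ) * x i - ww m i * ∑ j, ww m j * x j := by
  change (2 * m + 2 : ℝ) * x ((EE m).symm (EE m i)) -
    ww m ((EE m).symm (EE m i)) * ∑ j, ww m j * x j = _
  rw [Equiv.symm_apply_apply]

theorem col_eq (m : ℕ) (i : II m) :
    (fun τ => ((laplacian (2 * m) τ (EE m i) : ℤ) : ℝ)) = AM m (Pi.single i 1) := by
  funext τ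
  obtain ⟨j, rfl⟩ := (EE m).surjective τ
  rw [AM_apply, lap_EE]
  have h1 : ∑ l, ww m l * (Pi.single i (1 : ℝ) : II m → ℝ) l = ww m i := by
    rw [sum_eq_single i]
    · simp
    · intro l _ hl
      simp [hl]
    · intro h
      exact absurd (mem_univ _) h
  rw [h1, Pi.single_apply]
  congr 1
  split_ifs <;> simp

theorem lapPolytope_eq (m : ℕ) : lapPolytope (2 * m) = AM m '' stdSimplex ℝ (II m) := by
  rw [lapPolytope, ← convexHull_rangle_single_eq_stdSimplex, LinearMap.image_convexHull,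
    ← Set.range_comp]
  congr 1
  rw [← (EE m).surjective.range_comp]
  congr 1
  funext i
  exact col_eq m i

/-- membership in the dilates -/
theorem mem_smul (m k : ℕ) (x : Face (2 * m) (2 * m + 1) → ℝ) :
    x ∈ (k : ℝ) • lapPolytope (2 * m) ↔
      ∃ l : II m → ℝ, (∀ i, 0 ≤ l i) ∧ ∑ i, l i = k ∧ AM m l = x := by
  rw [lapPolytope_eq, Set.mem_smul_set]
  constructor
  · rintro ⟨y, ⟨u, ⟨hu0, hu1⟩, rfl⟩, rfl⟩
    refine ⟨(k : ℝ) • u, fun i => mul_nonneg (Nat.cast_nonneg _) (hu0 i), ?_, map_smul _ _ _⟩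
    simp only [Pi.smul_apply, smul_eq_mul, ← mul_sum, hu1, mul_one]
  · rintro ⟨l, hl0, hl1, rfl⟩
    rcases Nat.eq_zero_or_pos k with rfl | hk
    · have h1 : l = 0 := by
        funext i
        have h2 : ∑ i, l i = 0 := by rw [hl1]; simp
        rw [sum_eq_zero_iff_of_nonneg (fun i _ => hl0 i)] at h2
        exact h2 i (mem_univ _)
      subst h1
      refine ⟨AM m (Pi.single (Sum.inl 0) 1), ⟨_, single_mem_stdSimplex ℝ _, rfl⟩, ?_⟩
      simp
    · have hk' : (0 : ℝ) < k := by exact_mod_cast hk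
      refine ⟨AM m ((k : ℝ)⁻¹ • l), ⟨_, ⟨fun i => ?_, ?_⟩, rfl⟩, ?_⟩
      · exact mul_nonneg (inv_nonneg.2 hk'.le) (hl0 i)
      · simp only [Pi.smul_apply, smul_eq_mul, ← mul_sum, hl1]
        exact inv_mul_cancel₀ hk'.ne'
      · rw [map_smul, smul_smul, mul_inv_cancel₀ hk'.ne', one_smul]

/-- membership in the dilates, elementary form -/
theorem mem_smul' (m k : ℕ) (x : Face (2 * m) (2 * m + 1) → ℝ) :
    x ∈ (k : ℝ) • lapPolytope (2 * m) ↔
      (∑ i, x (EE m (Sum.inl i)) = (m + 1) * k ∧ ∑ i, x (EE m (Sum.inr i)) = (m + 1) * k ∧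
        ∃ t : ℝ, (∀ i, 0 ≤ x (EE m (Sum.inl i)) + t) ∧ ∀ i, 0 ≤ x (EE m (Sum.inr i)) - t) := by
  rw [mem_smul]
  constructor
  · rintro ⟨l, hl0, hl1, rfl⟩
    simp only [AM_apply]
    simp only [ww, Fintype.sum_sum_type, Sum.elim_inl, Sum.elim_inr, one_mul, neg_mul,
      sum_neg_distrib, sum_sub_distrib, sum_const, card_univ, Fintype.card_fin, nsmul_eq_mul,
      ← mul_sum] at hl1 ⊢
    push_cast
    refine ⟨?_, ?_, (∑ i, l (Sum.inl i)) - ∑ i, l (Sum.inr i), ?_, ?_⟩
    · rw [← hl1]; ring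
    · rw [← hl1]; ring
    · intro i
      have := hl0 (Sum.inl i)
      have h2 : (0 : ℝ) ≤ (2 * m + 2) * l (Sum.inl i) := by positivity
      linarith
    · intro i
      have := hl0 (Sum.inr i)
      have h2 : (0 : ℝ) ≤ (2 * m + 2) * l (Sum.inr i) := by positivity
      linarith
  · rintro ⟨h1, h2, t, h3, h4⟩
    have hN : (0 : ℝ) < 2 * m + 2 := by positivity
    refine ⟨fun i => (x (EE m i) + ww m i * t) / (2 * m + 2), ?_, ?_, ?_⟩
    · rintro (i | i)
      · apply div_nonneg _ hN.le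
        have := h3 i
        simp only [ww, Sum.elim_inl]
        linarith
      · apply div_nonneg _ hN.le
        have := h4 i
        simp only [ww, Sum.elim_inr]
        linarith
    · rw [← sum_div, div_eq_iff hN.ne']
      simp only [ww, Fintype.sum_sum_type, Sum.elim_inl, Sum.elim_inr, one_mul, neg_mul,
        sum_add_distrib, sum_neg_distrib, sum_const, card_univ, Fintype.card_fin, nsmul_eq_mul,
        h1, h2]
      ring
    · funext τ
      obtain ⟨j, rfl⟩ := (EE m).surjective τ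
      rw [AM_apply]
      have h5 : ∑ i, ww m i * ((x (EE m i) + ww m i * t) / (2 * m + 2)) = t := by
        have h6 : ∀ i, ww m i * ((x (EE m i) + ww m i * t) / (2 * m + 2)) =
            (ww m i * x (EE m i) + t) / (2 * m + 2) := by
          rintro (i | i) <;> simp only [ww, Sum.elim_inl, Sum.elim_inr] <;> ring
        rw [sum_congr rfl fun i _ => h6 i, ← sum_div, div_eq_iff hN.ne']
        simp only [ww, Fintype.sum_sum_type, Sum.elim_inl, Sum.elim_inr, one_mul, neg_mul,
          sum_add_distrib, sum_neg_distrib, sum_const, card_univ, Fintype.card_sum,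
          Fintype.card_fin, nsmul_eq_mul, h1, h2]
        push_cast
        ring
      rw [h5]
      field_simp
      ring

/-- the bijection between the counted pairs and the lattice points -/
noncomputable def GG (m : ℕ) (x : (Fin (m + 1) → ℤ) × (Fin (m + 1) → ℤ)) :
    Face (2 * m) (2 * m + 1) → ℝ :=
  fun τ => ((Sum.elim x.1 x.2 ((EE m).symm τ) : ℤ) : ℝ)

theorem GG_apply (m : ℕ) (x : (Fin (m + 1) → ℤ) × (Fin (m + 1) → ℤ)) (i : II m) :
    GG m x (EE m i) = ((Sum.elim x.1 x.2 i : ℤ) : ℝ) := by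
  rw [GG, Equiv.symm_apply_apply]

theorem GG_inj (m : ℕ) : Function.Injective (GG m) := by
  rintro ⟨p, q⟩ ⟨p', q'⟩ h
  have h1 : ∀ i : II m, Sum.elim p q i = Sum.elim p' q' i := by
    intro i
    have h2 := congrFun h (EE m i)
    rw [GG_apply, GG_apply] at h2
    exact_mod_cast h2
  refine Prod.ext (funext fun i => h1 (Sum.inl i)) (funext fun i => h1 (Sum.inr i))

theorem lattice_eq (m k : ℕ) :
    {x : Face (2 * m) (2 * m + 1) → ℝ | x ∈ (k : ℝ) • lapPolytope (2 * m) ∧
      ∀ i, ∃ z : ℤ, x i = z} = GG m '' SS (m + 1) k := by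
  ext x
  rw [Set.mem_ofPred_eq, mem_smul', Set.mem_image]
  constructor
  · rintro ⟨⟨h1, h2, t, h3, h4⟩, h5⟩
    choose z hz using h5
    refine ⟨(fun i => z (EE m (Sum.inl i)), fun i => z (EE m (Sum.inr i))), ⟨?_, ?_, ⌊t⌋, ?_, ?_⟩, ?_⟩
    · simp only [hz] at h1
      push_cast
      exact_mod_cast h1
    · simp only [hz] at h2
      push_cast
      exact_mod_cast h2
    · intro i
      have h6 := h3 i
      rw [hz] at h6
      have h7 : 0 ≤ ⌊(z (EE m (Sum.inl i)) : ℝ) + t⌋ := Int.floor_nonneg.2 h6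
      rwa [Int.floor_intCast_add] at h7
    · intro i
      have h6 := h4 i
      rw [hz] at h6
      have h7 : ((⌊t⌋ : ℤ) : ℝ) ≤ (z (EE m (Sum.inr i)) : ℝ) := (Int.floor_le t).trans (by linarith)
      have h8 : ⌊t⌋ ≤ z (EE m (Sum.inr i)) := by exact_mod_cast h7
      simp only
      linarith
    · funext τ
      obtain ⟨j, rfl⟩ := (EE m).surjective τ
      rw [GG_apply]
      rcases j with j | j
      · rw [hz]; rfl
      · rw [hz]; rfl
  · rintro ⟨⟨p, q⟩, ⟨h1, h2, s, h3, h4⟩, rfl⟩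
    simp only at h1 h2 h3 h4
    simp only [GG_apply, Sum.elim_inl, Sum.elim_inr]
    refine ⟨⟨?_, ?_, s, ?_, ?_⟩, ?_⟩
    · exact_mod_cast h1
    · exact_mod_cast h2
    · intro i
      exact_mod_cast h3 i
    · intro i
      exact_mod_cast h4 i
    · intro τ
      exact ⟨_, rfl⟩

theorem latticeCount_eq (m k : ℕ) :
    latticeCount (lapPolytope (2 * m)) k = (SS (m + 1) k).ncard := by
  rw [latticeCount, lattice_eq, Set.ncard_image_of_injective _ (GG_inj m)]

/-- the pair of sums -/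
noncomputable def UU (m : ℕ) : (Face (2 * m) (2 * m + 1) → ℝ) →ₗ[ℝ] ℝ × ℝ where
  toFun x := (∑ i, x (EE m (Sum.inl i)), ∑ i, x (EE m (Sum.inr i)))
  map_add' x y := by
    simp [sum_add_distrib]
  map_smul' c x := by
    simp [mul_sum]

theorem UU_surj (m : ℕ) : Function.Surjective (UU m) := by
  rintro ⟨a, b⟩
  refine ⟨fun τ => Sum.elim (fun i => if i = 0 then a else 0) (fun i => if i = 0 then b else 0)
    ((EE m).symm τ), ?_⟩
  simp [UU]

theorem finrank_ker (m : ℕ) : Module.finrank ℝ (LinearMap.ker (UU m)) = 2 * m := by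
  have h1 := (UU m).finrank_range_add_finrank_ker
  rw [LinearMap.range_eq_top.2 (UU_surj m), finrank_top, Module.finrank_prod, Module.finrank_self,
    Module.finrank_fintype_fun_eq_card, ← Fintype.card_congr (EE m)] at h1
  simp only [Fintype.card_sum, Fintype.card_fin] at h1
  omega

theorem vectorSpan_eq (m : ℕ) : vectorSpan ℝ (lapPolytope (2 * m)) = LinearMap.ker (UU m) := by
  apply le_antisymm
  · rw [vectorSpan_def, Submodule.span_le]
    rintro _ ⟨a, ha, b, hb, rfl⟩
    have h1 : ∀ x ∈ lapPolytope (2 * m), UU m x = ((m + 1 : ℝ), (m + 1 : ℝ)) := by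
      intro x hx
      have hx' : x ∈ ((1 : ℕ) : ℝ) • lapPolytope (2 * m) := by simpa using hx
      obtain ⟨h1, h2, _⟩ := (mem_smul' m 1 x).1 hx'
      simp only [Nat.cast_one, mul_one] at h1 h2
      exact Prod.ext h1 h2
    change UU m (a - b) = 0
    rw [map_sub, h1 a ha, h1 b hb, sub_self]
  · intro x hx
    rw [LinearMap.mem_ker] at hx
    have hx1 : ∑ i, x (EE m (Sum.inl i)) = 0 := congrArg Prod.fst hx
    have hx2 : ∑ i, x (EE m (Sum.inr i)) = 0 := congrArg Prod.snd hx
    have hN : (0 : ℝ) < 2 * m + 2 := by positivity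
    have hA : AM m (fun i => x (EE m i)) = (2 * m + 2 : ℝ) • x := by
      funext τ
      obtain ⟨j, rfl⟩ := (EE m).surjective τ
      rw [AM_apply]
      have h5 : ∑ i, ww m i * x (EE m i) = 0 := by
        simp only [ww, Fintype.sum_sum_type, Sum.elim_inl, Sum.elim_inr, one_mul, neg_mul,
          sum_neg_distrib, hx1, hx2]
        ring
      rw [h5]
      simp
    have hB : (fun i => x (EE m i)) = ∑ i, x (EE m i) • (Pi.single i (1 : ℝ) : II m → ℝ) := by
      exact pi_eq_sum_univ' _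
    have hC : (2 * m + 2 : ℝ) • x = ∑ i, x (EE m i) •
        (AM m (Pi.single i 1) - AM m (Pi.single (Sum.inl 0) 1)) := by
      rw [← hA, hB, map_sum]
      simp only [smul_sub, sum_sub_distrib, ← sum_smul]
      have h6 : ∑ i, x (EE m i) = 0 := by
        simp only [Fintype.sum_sum_type, hx1, hx2]
        ring
      rw [h6, zero_smul, sub_zero]
      exact sum_congr rfl fun i _ => map_smul _ _ _
    have hD : (2 * m + 2 : ℝ) • x ∈ vectorSpan ℝ (lapPolytope (2 * m)) := by
      rw [hC]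
      apply Submodule.sum_mem
      intro i _
      apply Submodule.smul_mem
      have h7 : ∀ i, AM m (Pi.single i 1) ∈ lapPolytope (2 * m) := by
        intro i
        rw [lapPolytope_eq]
        exact ⟨_, single_mem_stdSimplex ℝ i, rfl⟩
      exact vsub_mem_vectorSpan ℝ (h7 i) (h7 (Sum.inl 0))
    have hE := Submodule.smul_mem (vectorSpan ℝ (lapPolytope (2 * m))) ((2 * m + 2 : ℝ)⁻¹) hD
    rwa [smul_smul, inv_mul_cancel₀ hN.ne', one_smul] at hE

theorem finrank_vectorSpan (m : ℕ) :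
    Module.finrank ℝ (vectorSpan ℝ (lapPolytope (2 * m))) = 2 * m := by
  rw [vectorSpan_eq, finrank_ker]

/-- the `h*`-polynomial -/
theorem exists_hstar (m : ℕ) : ∃ H : Polynomial ℝ, IsHStar (lapPolytope (2 * m)) H ∧
    ∀ z : ℂ, Polynomial.aeval z H = 0 → z.im = 0 ∧ z.re ≤ 0 := by
  obtain ⟨H, hH, hz⟩ := main_series (m + 1) (Nat.succ_pos m)
  refine ⟨H, ?_, hz⟩
  rw [IsHStar, finrank_vectorSpan, ← hH]
  congr 1
  ext k
  rw [PowerSeries.coeff_mk, evens, PowerSeries.coeff_mk, latticeCount_eq,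
    ncard_SS (m + 1) k (Nat.succ_pos m)]

theorem IsHStar.unique {ι : Type*} {P : Set (ι → ℝ)} {f g : Polynomial ℝ} (hf : IsHStar P f)
    (hg : IsHStar P g) : f = g :=
  Polynomial.coe_injective ℝ (hf.symm.trans hg)

end Pool.Agent.T2H51.LAP
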